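import Pool.Agent.NDR.StmtsC

/-!
# Squad NDR, row CLE (MP_b48657_ag): the left side of the functional equation
-/

set_option autoImplicit false

open Finset MvPolynomial

namespace Pool.Agent.NDR.H51

section op

variable {σ : Type} {R : Type} [CommRing R]

theorem supIn_iff (S : Set (Option σ →₀ ℕ)) (P : MvPolynomial (Option σ) R) :
    SupIn S P ↔ P ∈ restrictSupport R S := by
  rw [mem_restrictSupport_iff]
  exact Iff.rfl

/-- like `Ec`, including the exponent zero -/
def E0 (I : Finset σ) (L : ℕ) : Set (Option σ →₀ ℕ) :=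
  {n | ∃ k : σ → ℕ, (∀ i ∈ I, n (some i) = L * k i) ∧ n none = ∑ i ∈ I, k i}

theorem shift_mem {I : Finset σ} {L : ℕ} {n : Option σ →₀ ℕ} (hn : n ∈ E0 I L) {i : σ}
    (hi : i ∈ I) :
    (Finsupp.single none 1 + (Finsupp.single (some i) L + n) : Option σ →₀ ℕ) ∈ Ec I L := by
  classical
  obtain ⟨k, hk1, hk2⟩ := hn
  refine ⟨?_, fun i' => (if i' = i then 1 else 0) + k i', ?_, ?_⟩
  · rw [Finsupp.add_apply, Finsupp.single_eq_same]
    omega
  · intro i' hi'
    rw [Finsupp.add_apply, Finsupp.add_apply, hk1 i' hi',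
      Finsupp.single_eq_of_ne (Option.some_ne_none i'), zero_add]
    show _ = L * ((if i' = i then 1 else 0) + k i')
    by_cases h : i' = i
    · rw [h, Finsupp.single_eq_same, if_pos rfl]
      ring
    · rw [if_neg h, Finsupp.single_eq_of_ne (fun h' => h (Option.some_injective _ h')), zero_add,
        zero_add]
  · rw [Finsupp.add_apply, Finsupp.add_apply, hk2, Finsupp.single_eq_same,
      Finsupp.single_eq_of_ne (Ne.symm (Option.some_ne_none i)), zero_add, Finset.sum_add_distrib,
      Finset.sum_ite_eq', if_pos hi]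

/-- the polynomial `g` -/
noncomputable def gI (I : Finset σ) (L : ℕ) (c : σ → R) : MvPolynomial σ R :=
  ∑ i ∈ I, C (c i) * X i ^ L

theorem mulG_mem (I : Finset σ) (L : ℕ) (c : σ → R) {n : Option σ →₀ ℕ} (hn : n ∈ E0 I L)
    (a : R) :
    X none * inc (gI I L c) * monomial n a ∈ restrictSupport R (Ec I L) := by
  unfold inc gI
  rw [map_sum, Finset.mul_sum, Finset.sum_mul]
  refine Submodule.sum_mem _ fun i hi => ?_
  rw [map_mul, rename_C, map_pow, rename_X, X_pow_eq_monomial, C_mul_monomial, mul_assoc, X,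
    monomial_mul, monomial_mul]
  exact (monomial_mem_restrictSupport R).2 (Or.inl (shift_mem hn hi))

theorem Ec_sub (I : Finset σ) (L : ℕ) : Ec I L ⊆ E0 I L := by
  rintro n ⟨-, k, h1, h2⟩
  exact ⟨k, h1, h2⟩

/-- the operator `S` -/
noncomputable def So (f : MvPolynomial (Option σ) R) (s : R) :
    MvPolynomial (Option σ) R →+ MvPolynomial (Option σ) R :=
  AddMonoidHom.mk' (fun Q => - tE f s Q) (by
    intro P Q
    unfold tE
    rw [map_add]
    ring)

theorem So_apply (f : MvPolynomial (Option σ) R) (s : R) (Q : MvPolynomial (Option σ) R) :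
    So f s Q = C s * Q - X none * pderiv none Q - X none * f * Q := by
  show - tE f s Q = _
  unfold tE
  ring

theorem So_monomial_mem (I : Finset σ) (L : ℕ) (c : σ → R) (s : R) {n : Option σ →₀ ℕ}
    (hn : n ∈ Ec I L) (a : R) :
    So (inc (gI I L c)) s (monomial n a) ∈ restrictSupport R (Ec I L) := by
  rw [So_apply]
  refine Submodule.sub_mem _ (Submodule.sub_mem _ ?_ ?_) (mulG_mem I L c (Ec_sub I L hn) a)
  · rw [C_mul_monomial]
    exact (monomial_mem_restrictSupport R).2 (Or.inl hn)
  · rw [pderiv_monomial, X, monomial_mul]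
    have h1 : (Finsupp.single none 1 + (n - Finsupp.single none 1) : Option σ →₀ ℕ) = n := by
      refine add_tsub_cancel_of_le ?_
      refine Finsupp.single_le_iff.2 ?_
      exact Nat.one_le_iff_ne_zero.2 hn.1
    rw [h1]
    exact (monomial_mem_restrictSupport R).2 (Or.inl hn)

theorem So_mem (I : Finset σ) (L : ℕ) (c : σ → R) (s : R) {Q : MvPolynomial (Option σ) R}
    (hQ : Q ∈ restrictSupport R (Ec I L)) :
    So (inc (gI I L c)) s Q ∈ restrictSupport R (Ec I L) := by
  rw [Q.as_sum, map_sum]
  refine Submodule.sum_mem _ fun n hn => ?_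
  exact So_monomial_mem I L c s ((supIn_iff _ _).2 hQ n hn) _

theorem So_C (I : Finset σ) (L : ℕ) (c : σ → R) (s a : R) :
    So (inc (gI I L c)) s (C a) - C (s * a) ∈ restrictSupport R (Ec I L) := by
  have h1 : So (inc (gI I L c)) s (C a) - C (s * a) =
      -(X none * inc (gI I L c) * monomial 0 a) := by
    rw [So_apply, pderiv_C, C_mul, mul_zero, sub_zero, ← C_apply]
    ring
  rw [h1]
  refine Submodule.neg_mem _ (mulG_mem I L c ⟨fun _ => 0, ?_, ?_⟩ a)
  · intro i _
    simp
  · simp

theorem So_iter (I : Finset σ) (L : ℕ) (c : σ → R) (s : R) (j : ℕ) :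
    (So (inc (gI I L c)) s)^[j] 1 - C (s ^ j) ∈ restrictSupport R (Ec I L) := by
  induction j with
  | zero =>
    rw [Function.iterate_zero, pow_zero, C_1]
    simp only [id, sub_self]
    exact Submodule.zero_mem _
  | succ j ih =>
    rw [Function.iterate_succ_apply']
    have h1 : So (inc (gI I L c)) s ((So (inc (gI I L c)) s)^[j] 1) - C (s ^ (j + 1)) =
        So (inc (gI I L c)) s ((So (inc (gI I L c)) s)^[j] 1 - C (s ^ j)) +
          (So (inc (gI I L c)) s (C (s ^ j)) - C (s * s ^ j)) := by
      rw [map_sub, pow_succ']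
      ring
    rw [h1]
    exact Submodule.add_mem _ (So_mem I L c s ih) (So_C I L c s _)

end op

/-- Row CLE. -/
theorem cle : CleStmt := by
  classical
  intro σ _ I L hL
  refine ⟨?_, ?_⟩
  · intro R _ c s b
    rw [supIn_iff, Polynomial.eval_eq_sum, Polynomial.sum_def, Polynomial.sum_def, map_sum,
      ← Finset.sum_sub_distrib]
    refine Submodule.sum_mem _ fun j _ => ?_
    rw [C_mul, ← mul_sub, ← smul_eq_C_mul]
    exact Submodule.smul_mem _ _ (So_iter I L c s j)
  · rintro M D n ⟨hn0, k, hk1, hk2⟩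
    have hk2' : ((n none : ℕ) : ℤ) = ∑ i ∈ I, ((k i : ℕ) : ℤ) := by
      rw [hk2]
      push_cast
      rfl
    refine ⟨fun v => Int.natCast_nonneg _, ?_, ?_, ?_⟩
    · refine ⟨fun α => ∑ i ∈ I, if α = Finsupp.single i L then (k i : ℝ) else 0, ?_, ?_, ?_⟩
      · intro α
        refine Finset.sum_nonneg fun i _ => ?_
        split_ifs
        · positivity
        · exact le_refl _
      · intro i' hi'
        have hmem : ∀ i ∈ I, Finsupp.single i L ∈ Mp M I L := by
          intro i hi
          unfold Mp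
          exact Finset.mem_union_right _ (Finset.mem_image_of_mem _ hi)
        have h1 : ∑ α ∈ Mp M I L, (∑ i ∈ I, if α = Finsupp.single i L then (k i : ℝ) else 0) *
            ((α i' : ℕ) : ℝ) = (k i' : ℝ) * (L : ℝ) := by
          have h2 : ∀ α ∈ Mp M I L, (∑ i ∈ I, if α = Finsupp.single i L then (k i : ℝ) else 0) *
              ((α i' : ℕ) : ℝ) = ∑ i ∈ I, if α = Finsupp.single i L then
                (k i : ℝ) * ((α i' : ℕ) : ℝ) else 0 := by
            intro α _
            rw [Finset.sum_mul]
            refine Finset.sum_congr rfl fun i _ => ?_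
            rw [ite_mul, zero_mul]
          rw [Finset.sum_congr rfl h2, Finset.sum_comm]
          rw [Finset.sum_eq_single i']
          · rw [Finset.sum_ite_eq' (Mp M I L) (Finsupp.single i' L)
              (fun α => (k i' : ℝ) * ((α i' : ℕ) : ℝ)), if_pos (hmem i' hi'),
              Finsupp.single_eq_same]
          · intro i hi hii
            rw [Finset.sum_ite_eq' (Mp M I L) (Finsupp.single i L)
              (fun α => (k i : ℝ) * ((α i' : ℕ) : ℝ)), if_pos (hmem i hi),
              Finsupp.single_eq_of_ne (Ne.symm hii)]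
            simp
          · intro h
            exact absurd hi' h
        rw [h1]
        show (k i' : ℝ) * (L : ℝ) ≤ (((n (some i') : ℕ) : ℤ) : ℝ)
        rw [hk1 i' hi']
        push_cast
        linarith
      · rw [Finset.sum_comm]
        have h1 : ∀ i ∈ I, ∑ α ∈ Mp M I L, (if α = Finsupp.single i L then (k i : ℝ) else 0) =
            (k i : ℝ) := by
          intro i hi
          rw [Finset.sum_ite_eq' (Mp M I L) (Finsupp.single i L) (fun _ => (k i : ℝ)), if_pos]
          unfold Mp
          exact Finset.mem_union_right _ (Finset.mem_image_of_mem _ hi)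
        rw [Finset.sum_congr rfl h1, hk2']
        push_cast
        rfl
    · intro κ N hN _ _ hLk
      have h1 : ∀ i ∈ I, (κ i : ℤ) * ((n (some i) : ℕ) : ℤ) = ((L * κ i * k i : ℕ) : ℤ) := by
        intro i hi
        rw [hk1 i hi]
        push_cast
        ring
      rw [Finset.sum_congr rfl h1, hk2', Finset.mul_sum]
      obtain ⟨i0, hi0, hk0⟩ : ∃ i ∈ I, k i ≠ 0 := by
        by_contra hcon
        push Not at hcon
        exact hn0 (hk2.trans (Finset.sum_eq_zero hcon))
      refine Finset.sum_lt_sum ?_ ⟨i0, hi0, ?_⟩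
      · intro i hi
        have := Nat.mul_le_mul_right (k i) (hLk i hi).le
        exact_mod_cast this
      · have := Nat.mul_lt_mul_of_pos_right (hLk i0 hi0) (Nat.pos_of_ne_zero hk0)
        exact_mod_cast this
    · have h1 : ∀ i ∈ I, ((n (some i) : ℕ) : ℤ) = (L : ℤ) * ((k i : ℕ) : ℤ) := by
        intro i hi
        rw [hk1 i hi]
        push_cast
        ring
      rw [Finset.sum_congr rfl h1, ← Finset.mul_sum, ← hk2']
      have : (0 : ℤ) ≤ (D : ℤ) := Int.natCast_nonneg _
      linarith

end Pool.Agent.NDR.H51
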