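import Pool.Agent.NDR.StmtsG

/-!
# Squad NDR, row KUN (helper51): the Koszul complex of a unit ideal is exact
-/

set_option autoImplicit false

namespace Pool.Agent.NDR.H51

open Finset Pool.Agent.NDR

section kun

variable {T R : Type} [CommRing R]

/-- the homotopy of the elements `b j`, `j ∈ S` -/
noncomputable def hkn (b : T → R) (S : Finset T) (x : Finset T → R) : Finset T → R := by
  classical exact fun U => ∑ k ∈ U ∩ S, sg k (U.erase k) • (b k * x (U.erase k))

theorem hkn_chn (b : T → R) (S : Finset T) (N : AddSubgroup R) (i : ℕ) (x : Finset T → R)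
    (hb : Stb b S N) (hx : Chn S N i x) : Chn S N (i + 1) (hkn b S x) := by
  classical
  intro U
  refine ⟨?_, ?_⟩
  · refine AddSubgroup.sum_mem _ ?_
    intro k hk
    exact AddSubgroup.zsmul_mem _ (hb k (Finset.mem_inter.1 hk).2 _ (hx _).1) _
  · intro hne
    obtain ⟨k, hk, hk0⟩ := Finset.exists_ne_zero_of_sum_ne_zero hne
    have hx0 : x (U.erase k) ≠ 0 := by
      intro h
      apply hk0
      rw [h, mul_zero, smul_zero]
    obtain ⟨h1, h2⟩ := (hx (U.erase k)).2 hx0
    obtain ⟨hkU, hkS⟩ := Finset.mem_inter.1 hk
    refine ⟨?_, ?_⟩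
    · intro u hu
      by_cases huk : u = k
      · rw [huk]
        exact hkS
      · exact h1 (Finset.mem_erase.2 ⟨huk, hu⟩)
    · have := Finset.card_erase_add_one hkU
      omega

/-- the homotopy formula -/
theorem hkn_formula (hS : KsgStmt) (a b : T → R) (S : Finset T) (x : Finset T → R) (U : Finset T)
    (hU : U ⊆ S) : kd a S (hkn b S x) U + hkn b S (kd a S x) U = (∑ j ∈ S, b j * a j) * x U := by
  classical
  obtain ⟨sg1, sg2, -, -⟩ := hS T R
  -- first term
  have h1 : kd a S (hkn b S x) U = ∑ j ∈ S \ U, (b j * a j * x U + ∑ k ∈ U,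
      (sg j U * sg k (insert j (U.erase k))) • (b k * a j * x (insert j (U.erase k)))) := by
    show ∑ j ∈ S \ U, sg j U • (a j * ∑ k ∈ (insert j U) ∩ S, sg k ((insert j U).erase k) •
      (b k * x ((insert j U).erase k))) = _
    refine Finset.sum_congr rfl ?_
    intro j hj
    obtain ⟨hjS, hjU⟩ := Finset.mem_sdiff.1 hj
    have hi : insert j U ∩ S = insert j U := by
      refine Finset.inter_eq_left.2 ?_
      exact Finset.insert_subset hjS hU
    rw [hi, Finset.sum_insert hjU, Finset.erase_insert hjU, mul_add, smul_add]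
    congr 1
    · have h2 := sg2 j U
      calc sg j U • (a j * sg j U • (b j * x U))
          = (sg j U * sg j U) • (b j * a j * x U) := by
            simp only [zsmul_eq_mul, Int.cast_mul]
            ring
        _ = b j * a j * x U := by rw [h2, one_smul]
    · rw [Finset.mul_sum, Finset.smul_sum]
      refine Finset.sum_congr rfl ?_
      intro k hk
      have hjk : j ≠ k := fun h => hjU (h ▸ hk)
      rw [Finset.erase_insert_of_ne hjk]
      simp only [zsmul_eq_mul, Int.cast_mul]
      ring
  have h2 : hkn b S (kd a S x) U = ∑ k ∈ U, (b k * a k * x U + ∑ j ∈ S \ U,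
      (sg k (U.erase k) * sg j (U.erase k)) • (b k * a j * x (insert j (U.erase k)))) := by
    show ∑ k ∈ U ∩ S, sg k (U.erase k) • (b k * ∑ j ∈ S \ (U.erase k), sg j (U.erase k) •
      (a j * x (insert j (U.erase k)))) = _
    rw [Finset.inter_eq_left.2 hU]
    refine Finset.sum_congr rfl ?_
    intro k hk
    have hd : S \ (U.erase k) = insert k (S \ U) := by
      ext t
      simp only [Finset.mem_sdiff, Finset.mem_erase, Finset.mem_insert]
      constructor
      · rintro ⟨h1, h2⟩
        by_cases htk : t = k
        · exact Or.inl htk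
        · exact Or.inr ⟨h1, fun h => h2 ⟨htk, h⟩⟩
      · rintro (h | ⟨h1, h2⟩)
        · rw [h]
          exact ⟨hU hk, fun h => h.1 rfl⟩
        · exact ⟨h1, fun h => h2 h.2⟩
    have hkn' : k ∉ S \ U := fun h => (Finset.mem_sdiff.1 h).2 hk
    rw [hd, Finset.sum_insert hkn', Finset.insert_erase hk, mul_add, smul_add]
    congr 1
    · have h2 := sg2 k (U.erase k)
      calc sg k (U.erase k) • (b k * sg k (U.erase k) • (a k * x U))
          = (sg k (U.erase k) * sg k (U.erase k)) • (b k * a k * x U) := by
            simp only [zsmul_eq_mul, Int.cast_mul]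
            ring
        _ = b k * a k * x U := by rw [h2, one_smul]
    · rw [Finset.mul_sum, Finset.smul_sum]
      refine Finset.sum_congr rfl ?_
      intro j hj
      simp only [zsmul_eq_mul, Int.cast_mul]
      ring
  have h3 : ∑ j ∈ S \ U, ∑ k ∈ U,
      (sg j U * sg k (insert j (U.erase k))) • (b k * a j * x (insert j (U.erase k))) +
      ∑ k ∈ U, ∑ j ∈ S \ U,
      (sg k (U.erase k) * sg j (U.erase k)) • (b k * a j * x (insert j (U.erase k))) = 0 := by
    rw [Finset.sum_comm, ← Finset.sum_add_distrib]
    refine Finset.sum_eq_zero ?_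
    intro k hk
    rw [← Finset.sum_add_distrib]
    refine Finset.sum_eq_zero ?_
    intro j hj
    obtain ⟨hjS, hjU⟩ := Finset.mem_sdiff.1 hj
    have hjk : j ≠ k := fun h => hjU (h ▸ hk)
    have hkV : k ∉ U.erase k := Finset.notMem_erase k U
    have hjV : j ∉ U.erase k := fun h => hjU (Finset.mem_of_mem_erase h)
    have e1 := sg1 j k (U.erase k) hjk hjV hkV
    rw [Finset.insert_erase hk] at e1
    have e2 := sg2 k (U.erase k)
    have e3 := sg2 k (insert j (U.erase k))
    rw [← add_smul]
    have e4 : sg j U * sg k (insert j (U.erase k)) +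
        sg k (U.erase k) * sg j (U.erase k) = 0 := by
      have : sg j U * sg k (insert j (U.erase k)) =
          -(sg k (U.erase k) * sg j (U.erase k)) := by
        calc sg j U * sg k (insert j (U.erase k))
            = (sg k (U.erase k) * sg k (U.erase k)) * (sg j U * sg k (insert j (U.erase k))) := by
              rw [e2, one_mul]
          _ = (sg j U * sg k (U.erase k)) *
              (sg k (U.erase k) * sg k (insert j (U.erase k))) := by ring
          _ = -(sg k (insert j (U.erase k)) * sg j (U.erase k)) *
              (sg k (U.erase k) * sg k (insert j (U.erase k))) := by rw [e1]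
          _ = -((sg k (insert j (U.erase k)) * sg k (insert j (U.erase k))) *
              (sg k (U.erase k) * sg j (U.erase k))) := by ring
          _ = -(sg k (U.erase k) * sg j (U.erase k)) := by rw [e3, one_mul]
      rw [this]
      ring
    rw [e4, zero_smul]
  rw [h1, h2, Finset.sum_add_distrib, Finset.sum_add_distrib]
  have h4 : ∑ j ∈ S \ U, b j * a j * x U + ∑ j ∈ U, b j * a j * x U =
      (∑ j ∈ S, b j * a j) * x U := by
    rw [Finset.sum_sdiff hU, Finset.sum_mul]
  rw [← h4]
  linear_combination h3

theorem kun_of (hS : KsgStmt) : KunStmt := by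
  classical
  intro T R _ a b S N ha hb hu i x hx hk
  refine ⟨hkn b S x, hkn_chn b S N i x hb hx, ?_⟩
  intro U
  rw [AddSubgroup.mem_bot]
  have hk0 : kd a S x = 0 := by
    funext V
    exact AddSubgroup.mem_bot.1 (hk V)
  by_cases hU : U ⊆ S
  · have h1 := hkn_formula hS a b S x U hU
    have h2 : hkn b S (kd a S x) U = 0 := by
      rw [hk0]
      show ∑ k ∈ U ∩ S, sg k (U.erase k) • (b k * (0 : Finset T → R) (U.erase k)) = 0
      refine Finset.sum_eq_zero ?_
      intro k _
      rw [Pi.zero_apply, mul_zero, smul_zero]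
    rw [h2, add_zero, hu, one_mul] at h1
    rw [h1, sub_self]
  · have hx0 : x U = 0 := by
      by_contra h
      exact hU ((hx U).2 h).1
    obtain ⟨u, huU, huS⟩ := Finset.not_subset.1 hU
    have h1 : kd a S (hkn b S x) U = 0 := by
      show ∑ j ∈ S \ U, sg j U • (a j * ∑ k ∈ (insert j U) ∩ S, sg k ((insert j U).erase k) •
        (b k * x ((insert j U).erase k))) = 0
      refine Finset.sum_eq_zero ?_
      intro j _
      have h2 : ∑ k ∈ (insert j U) ∩ S, sg k ((insert j U).erase k) •
        (b k * x ((insert j U).erase k)) = 0 := by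
        refine Finset.sum_eq_zero ?_
        intro k hk
        have hkS := (Finset.mem_inter.1 hk).2
        have hxz : x ((insert j U).erase k) = 0 := by
          by_contra h
          have h3 := ((hx _).2 h).1
          apply huS
          refine h3 (Finset.mem_erase.2 ⟨?_, Finset.mem_insert_of_mem huU⟩)
          intro h
          exact huS (h ▸ hkS)
        rw [hxz, mul_zero, smul_zero]
      rw [h2, mul_zero, smul_zero]
    rw [hx0, h1, sub_self]

end kun

end Pool.Agent.NDR.H51
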