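import Pool.Agent.NDR.StmtsP

/-!
# Squad NDR, row ZET (MP_b48657_ag): positive reals independent over a finite dimensional space
-/

set_option autoImplicit false

open Finset Polynomial

namespace Pool.Agent.NDR.H51

/-- the span of finitely many reals over the rationals is countable -/
theorem spanCountable {ι : Type} [Fintype ι] (v : ι → ℝ) :
    Countable (Submodule.span ℚ (insert (1 : ℝ) (Set.range v))) := by
  have hfin : (insert (1 : ℝ) (Set.range v)).Finite := (Set.finite_range v).insert 1
  have : Module.Finite ℚ (Submodule.span ℚ (insert (1 : ℝ) (Set.range v))) :=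
    Module.Finite.iff_fg.2 (Submodule.fg_span hfin)
  exact (Module.finBasis ℚ (Submodule.span ℚ (insert (1 : ℝ) (Set.range v)))).equivFun.toEquiv.countable_iff.2
    inferInstance

/-- the polynomial with the coefficients `c` -/
noncomputable def pol {α : Type} [Fintype α] (f : α → ℕ) (c : α → ℝ) : Polynomial ℝ :=
  ∑ a, C (c a) * X ^ (f a)

theorem pol_ne {α : Type} [Fintype α] (f : α → ℕ) (hf : Function.Injective f) (c : α → ℝ)
    (hc : c ≠ 0) : pol f c ≠ 0 := by
  classical
  intro h
  refine hc ?_
  funext a
  have h1 : (pol f c).coeff (f a) = c a := by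
    unfold pol
    rw [finsetSum_coeff, Finset.sum_eq_single a]
    · rw [coeff_C_mul_X_pow, if_pos rfl]
    · intro b _ hba
      rw [coeff_C_mul_X_pow, if_neg]
      intro hab
      exact hba (hf hab).symm
    · intro h
      exact absurd (Finset.mem_univ a) h
  rw [← h1, h]
  rfl

theorem pol_eval {α : Type} [Fintype α] (f : α → ℕ) (c : α → ℝ) (t : ℝ) :
    (pol f c).eval t = ∑ a, c a * t ^ (f a) := by
  unfold pol
  rw [eval_finsetSum]
  refine Finset.sum_congr rfl fun a _ => ?_
  rw [eval_mul, eval_C, eval_pow, eval_X]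

/-- Row ZET. -/
theorem zet : ZetStmt := by
  classical
  intro ι _ A v
  set L := Submodule.span ℚ (insert (1 : ℝ) (Set.range v)) with hL
  have hcount : Countable L := spanCountable v
  let f : A → ℕ := fun a => (A.equivFin a : ℕ)
  have hf : Function.Injective f := by
    intro a b h
    exact A.equivFin.injective (Fin.ext h)
  let B : Set ℝ := ⋃ c : A → L, {t | (fun a => ((c a : L) : ℝ)) ≠ 0 ∧
    (pol f fun a => ((c a : L) : ℝ)).eval t = 0}
  have hB : B.Countable := by
    refine Set.countable_iUnion fun c => ?_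
    by_cases hc : (fun a => ((c a : L) : ℝ)) ≠ 0
    · have h1 := pol_ne f hf _ hc
      refine Set.Finite.countable ?_
      refine (Polynomial.finite_setOfPred_isRoot h1).subset ?_
      rintro t ⟨-, ht⟩
      exact ht
    · refine Set.Countable.mono ?_ Set.countable_empty
      rintro t ⟨h, -⟩
      exact hc h
  obtain ⟨t, htB, ht0, -⟩ := (hB.dense_compl ℝ).exists_between (zero_lt_one (α := ℝ))
  refine ⟨fun a => if h : a ∈ A then t ^ f ⟨a, h⟩ else 1, ?_, ?_⟩
  · intro a
    by_cases h : a ∈ A
    · simp only [dif_pos h]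
      exact pow_pos ht0 _
    · simp only [dif_neg h]
      exact one_pos
  · intro c hc hsum
    let c' : A → L := fun a => ⟨c a.1, hc a.1 a.2⟩
    have h1 : (pol f fun a => ((c' a : L) : ℝ)).eval t = 0 := by
      rw [pol_eval, ← hsum, ← Finset.sum_coe_sort A]
      refine Finset.sum_congr rfl fun a _ => ?_
      show c a.1 * t ^ f a = (if h : a.1 ∈ A then t ^ f ⟨a.1, h⟩ else 1) * c a.1
      rw [dif_pos a.2, mul_comm]
    have h2 : (fun a => ((c' a : L) : ℝ)) = 0 := by
      by_contra hne
      exact htB (Set.mem_iUnion.2 ⟨c', hne, h1⟩)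
    intro a ha
    exact congrFun h2 ⟨a, ha⟩

end Pool.Agent.NDR.H51
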